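import Pool.Agent.Helper84.T5K.Final
import Pool.Agent.Helper84.T5.Fam

/-!
# The theorem for coefficient rings with enough points
-/

set_option autoImplicit false
set_option linter.unusedSectionVars false

open NumberField IsLocalRing Pool.Agent.Helper16.TR Pool.Agent.Helper27.TE
  Pool.Agent.Helper27.LP Pool.Agent.Helper27.TFM Matrix

open scoped Pointwise Topology

namespace Pool.Agent.Helper84.T5K

open Pool.Agent.Helper77
open Pool.Agent.Helper77.SO hiding Dv Cont ResP FinIm aug IsOrd Irr cf Criterion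
open Pool.Agent.Helper42.SOM hiding exists_decomp tame_rel
open Pool.Agent.Helper91.KK (LD exists_decomp tame_rel card_ne_zero)
open Pool.Agent.Helper84.T5 hiding nilCrit_gen quot quot_cont quot_resP unipotent_inertia finite_res finite_main link_gen finite_points push_res

section main

variable {K : Type} [Field K] [NumberField K] (p : ℕ) [Fact p.Prime]
    (A : Type) [CommRing A] [IsLocalRing A] [IsNoetherianRing A] [TopologicalSpace A]
    [CharP (ResidueField A) p] [Finite (ResidueField A)] [IsAdicComplete (maximalIdeal A) A]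

/-- the projective residual image of the images -/
lemma push_res {O : Type} [CommRing O] [IsLocalRing O] [Finite (ResidueField O)] (j : A →+* O)
    {n : ℕ} (ρ : GK K →* GL (Fin n) A)
    (hr : ∀ g, ∃ (m : ℕ) (a : ResidueField A),
      ((residual ρ g ^ p ^ m : GL (Fin n) (ResidueField A)) :
        Matrix (Fin n) (Fin n) (ResidueField A)) = a • 1) (g : GK K) :
    ∃ (m : ℕ) (a : ResidueField O),
      ((residual (push j ρ) g ^ p ^ m : GL (Fin n) (ResidueField O)) :
        Matrix (Fin n) (Fin n) (ResidueField O)) = a • 1 := by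
  obtain ⟨m, a, h⟩ := hr g
  obtain ⟨b, rfl⟩ := residue_surjective a
  refine ⟨m, residue O (j b), ?_⟩
  have h1 : ∀ x y, ((ρ g : Matrix (Fin n) (Fin n) A) ^ p ^ m - b • 1) x y ∈ maximalIdeal A := by
    intro x y
    rw [← residue_eq_zero_iff]
    have h2 : (residue A).mapMatrix ((ρ g : Matrix (Fin n) (Fin n) A) ^ p ^ m) =
        residue A b • 1 := by
      rw [map_pow]
      exact h
    have h3 : (residue A).mapMatrix ((ρ g : Matrix (Fin n) (Fin n) A) ^ p ^ m - b • 1) = 0 := by
      rw [map_sub, h2]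
      ext x y
      by_cases hxy : x = y
      · subst hxy; simp
      · simp [hxy]
    exact congrFun (congrFun h3 x) y
  have h4 : (residue O).mapMatrix (j.mapMatrix ((ρ g : Matrix (Fin n) (Fin n) A) ^ p ^ m - b • 1))
      = 0 := by
    ext x y
    change residue O (j _) = 0
    rw [residue_eq_zero_iff]
    exact map_mem_max j (h1 x y)
  rw [map_sub, map_sub, sub_eq_zero, map_pow, map_pow] at h4
  have h5 : (residue O).mapMatrix (j.mapMatrix (b • (1 : Matrix (Fin n) (Fin n) A))) =
      residue O (j b) • 1 := by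
    ext x y
    by_cases hxy : x = y
    · subst hxy; simp
    · simp [hxy]
  rw [h5] at h4
  exact h4

/-- coefficient rings with enough points of odd degree -/
theorem finite_points (hp2 : p ≠ 2)
    {S : Set (Ideal (𝓞 K))} {𝔮 : Fin 4 → Ideal (𝓞 K)}
    {χ : Fin 4 → GK K →* Multiplicative (ZMod p)} {q : Fin 4 → ℕ} {l : Fin 4 → Fin 4 → ℕ}
    (hL : LD K (AlgebraicClosure K) p S 𝔮 χ q l)
    (hAn : Aniso (fun i j => (l i j : ZMod p))) (hS : S.Finite) (hA : IsAdic (maximalIdeal A))
    {n : ℕ} (h5 : n ≤ 5) (ρ : GK K →* GL (Fin n) A) (hρ : Continuous ρ) (hTame : TameSub K S ρ.ker)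
    (hr : ∀ g, ∃ (m : ℕ) (a : ResidueField A),
      ((residual ρ g ^ p ^ m : GL (Fin n) (ResidueField A)) :
        Matrix (Fin n) (Fin n) (ResidueField A)) = a • 1)
    (hchar : (p : A) = 0 ∨ (n < p ∧ (Spread p q l ∨ Flat p n q l)))
    (hpts : OddPoints p n (∀ Q : Ideal (𝓞 (AlgebraicClosure K)), Q.IsMaximal →
      Q.comap (algebraMap (𝓞 K) (𝓞 (AlgebraicClosure K))) ∈ Set.range 𝔮 →
      ∀ τ ∈ Q.inertia (GK K), IsNilpotent ((ρ τ : Matrix (Fin n) (Fin n) A) - 1)) A) :
    (Set.range ρ).Finite := by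
  rcases Nat.eq_zero_or_pos n with rfl | hpos
  · exact Set.toFinite _
  set R := ρ.ker with hR
  have hfab : FAb (GK K ⧸ R) := fab_quot hTame hS
  have hopen : ∀ j : ℕ, IsOpen (KI (quotA ρ) (maximalIdeal A ^ j) : Set (GK K ⧸ R)) := by
    intro j
    have h1 : (KI (quotA ρ) (maximalIdeal A ^ j) : Set (GK K ⧸ R)) =
        (QuotientGroup.mk : GK K → GK K ⧸ R) ''
          (KI ((Units.coeHom _).comp ρ : GK K →* Matrix (Fin n) (Fin n) A)
            (maximalIdeal A ^ j) : Set (GK K)) := by
      ext x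
      constructor
      · intro hx
        obtain ⟨g, rfl⟩ := QuotientGroup.mk'_surjective R x
        exact ⟨g, hx, rfl⟩
      · rintro ⟨g, hg, rfl⟩
        exact hg
    rw [h1]
    exact QuotientGroup.isOpenMap_coe _ (isOpen_KI_of_continuous hA ρ hρ j)
  have hpm : (p : A) ∈ maximalIdeal A := by
    rw [← residue_eq_zero_iff, map_natCast]
    exact CharP.cast_eq_zero _ p
  have key : ∀ I : Ideal A, (I = ⊥ ∨ I = Ideal.span {(p : A)}) → ∀ a : A, ¬ IsUnit a →
      (∀ m : ℕ, a ^ m ∉ I) → ∃ P : Ideal A, P.IsPrime ∧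
        IsOpen (KI (quotA ρ) P : Set (GK K ⧸ R)) ∧ I ≤ P ∧ a ∉ P := by
    intro I hI a ha haI
    obtain ⟨O, _, _, _, j, f, hcomp, hf, hcard, hjI, hja, hp⟩ := hpts I hI a ha haI
    have hfin : Finite (ResidueField O) := by
      apply Nat.finite_of_card_ne_zero
      rw [hcard]
      exact pow_ne_zero _ (Fact.out : p.Prime).ne_zero
    have hch : CharP (ResidueField O) p :=
      charP_of_card (by rintro rfl; exact absurd hf (by decide)) hcard
    let _ : TopologicalSpace O := (maximalIdeal O).adicTopology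
    have hO : IsAdic (maximalIdeal O) := rfl
    refine ⟨RingHom.ker j, RingHom.ker_isPrime j, ?_, fun x hx => hjI x hx, hja⟩
    refine isOpen_KI_of_finiteIndex _ hopen _ (finiteIndex_of_push j ρ ?_)
    have hcont : Continuous (push j ρ) := by
      have h1 : Continuous (Units.map
          ((j.mapMatrix : Matrix (Fin n) (Fin n) A →+* Matrix (Fin n) (Fin n) O) :
            Matrix (Fin n) (Fin n) A →* Matrix (Fin n) (Fin n) O)) :=
        Continuous.units_map _ (Continuous.matrix_map continuous_id (continuous_hom j hA hO))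
      exact h1.comp hρ
    have hin : (∀ Q : Ideal (𝓞 (AlgebraicClosure K)), Q.IsMaximal →
        Q.comap (algebraMap (𝓞 K) (𝓞 (AlgebraicClosure K))) ∈ Set.range 𝔮 →
        ∀ τ ∈ Q.inertia (GK K), IsNilpotent ((ρ τ : Matrix (Fin n) (Fin n) A) - 1)) →
        ∀ Q : Ideal (𝓞 (AlgebraicClosure K)), Q.IsMaximal →
          Q.comap (algebraMap (𝓞 K) (𝓞 (AlgebraicClosure K))) ∈ Set.range 𝔮 → ∀ τ ∈ Q.inertia (GK K),
          IsNilpotent ((push j ρ τ : Matrix (Fin n) (Fin n) O) - 1) := by
      intro h Q hQ hqQ τ hτ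
      have h2 := (h Q hQ hqQ τ hτ).map (j.mapMatrix : Matrix (Fin n) (Fin n) A →+* _)
      rwa [map_sub, map_one] at h2
    refine finite_main p hp2 hL hAn hS O hO hcard (push j ρ) hcont
      (hTame.mono (push_ker j ρ)) (push_res p A j ρ hr) ?_
      (Or.inl ⟨h5, hf⟩)
    by_cases hp0 : (p : O) = 0
    · exact Or.inl hp0
    · right
      refine ⟨?_, ?_⟩
      · refine hchar.resolve_left fun h => hp0 ?_
        rw [← map_natCast j, h, map_zero]
      · rcases hp.resolve_left hp0 with h | h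
        · exact Or.inr (hin h)
        · exact Or.inl h
  have hbot : IsOpen (KI (quotA ρ) (⊥ : Ideal A) : Set (GK K ⧸ R)) := by
    refine isOpen_KI_bot hfab p hpm (quotA ρ) hopen hpos
      {P | P.IsPrime ∧ IsOpen (KI (quotA ρ) P : Set (GK K ⧸ R))} (fun P hP => hP) ?_ ?_
    · intro a ha h
      obtain ⟨P, h1, h2, -, h4⟩ := key ⊥ (Or.inl rfl) a ha h
      exact ⟨P, ⟨h1, h2⟩, h4⟩
    · intro a ha h
      obtain ⟨P, h1, h2, h3, h4⟩ := key _ (Or.inr rfl) a ha h
      exact ⟨P, ⟨h1, h2⟩, h3 (Ideal.mem_span_singleton_self _), h4⟩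
  refine Helper27.TE.finite_range_of_open
    (N := (KI (quotA ρ) (⊥ : Ideal A)).comap (QuotientGroup.mk' R))
    (hbot.preimage continuous_quotient_mk') ?_
  intro g hg
  rw [MonoidHom.mem_ker]
  apply Units.ext
  have h1 : MI (⊥ : Ideal A) (quotA ρ (QuotientGroup.mk' R g) - 1) := hg
  have h2 : (ρ g : Matrix (Fin n) (Fin n) A) - 1 = 0 := by
    ext x y
    exact h1 x y
  exact sub_eq_zero.1 h2

end main

end Pool.Agent.Helper84.T5K
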