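import Pool.Agent.Helper84.T5K.Link
import Pool.Agent.Helper84.T5.Final

/-!
# The theorem for discrete valuation rings
-/

set_option autoImplicit false
set_option linter.unusedSectionVars false

open NumberField IsLocalRing Pool.Agent.Helper16.TR Pool.Agent.Helper27.TE
  Pool.Agent.Helper27.LP Pool.Agent.Helper27.TFM Matrix

open scoped Pointwise

namespace Pool.Agent.Helper84.T5K

open Pool.Agent.Helper77
open Pool.Agent.Helper77.SO hiding Dv Cont ResP FinIm aug IsOrd Irr cf Criterion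
open Pool.Agent.Helper77.SM (Good Dv Cont ResP FinIm res res_add res_smul res_eq_zero res_mul
  res_zero smul_pow_inj dv_smul_iff dv_smul_pow)
open Pool.Agent.Helper42.SOM hiding exists_decomp tame_rel
open Pool.Agent.Helper91.KK (LD exists_decomp tame_rel card_ne_zero)
open Pool.Agent.Helper84.T5 hiding nilCrit_gen quot quot_cont quot_resP unipotent_inertia finite_res finite_main link_gen

variable {K : Type} [Field K] [NumberField K]

theorem nilCrit_gen (p : ℕ) [Fact p.Prime] (hp2 : p ≠ 2) {f : ℕ} {z : Prop}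
    {S : Set (Ideal (𝓞 K))} {𝔮 : Fin 4 → Ideal (𝓞 K)}
    {χ : Fin 4 → GK K →* Multiplicative (ZMod p)} {q : Fin 4 → ℕ} {l : Fin 4 → Fin 4 → ℕ}
    (hL : LD K (AlgebraicClosure K) p S 𝔮 χ q l)
    (hA : Aniso (fun i j => (l i j : ZMod p))) {N e : ℕ}
    (hval : z ∨ (N < p ∧ (Spread p q l ∨ Flat p N q l)))
    (R : Subgroup (GK K)) [R.Normal] (hR : TameSub K S R) (I : ℕ → Set (GK K ⧸ R))
    (hI : ∀ Q : Ideal (𝓞 (AlgebraicClosure K)), Q.IsMaximal →
      Q.comap (algebraMap (𝓞 K) (𝓞 (AlgebraicClosure K))) ∈ Set.range 𝔮 → ∀ τ ∈ Q.inertia (GK K),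
      QuotientGroup.mk' R τ ∈ I e)
    (hcase : (N ≤ 5 ∧ Odd f) ∨ ∃ a b : Fin 4, a ≠ b ∧ ∀ i, (i = a ∨ i = b) →
      ∀ Q : Ideal (𝓞 (AlgebraicClosure K)), Q.IsMaximal →
        Q.comap (algebraMap (𝓞 K) (𝓞 (AlgebraicClosure K))) = 𝔮 i → ∀ τ ∈ Q.inertia (GK K),
          QuotientGroup.mk' R τ ∈ I 2) (n : ℕ) (hn : n ≤ N) : NilCrit p f z n I := by
  intro O _ _ _ hO ϖ hϖ σ a V ha hcont hσ hun y hy
  set π := QuotientGroup.mk' R with hπ
  have hsurj : Function.Surjective π := QuotientGroup.mk'_surjective R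
  have hc1 : Continuous π := continuous_quotient_mk'
  have hRj : ∀ j, R ≤ (red (σ.comp π) ϖ j).ker := by
    intro j g hg
    have h1 : π g = 1 := by
      rw [← MonoidHom.mem_ker, hπ, QuotientGroup.ker_mk']
      exact hg
    rw [MonoidHom.mem_ker, red_eq_one_iff, MonoidHom.comp_apply, h1, map_one, sub_self]
    exact Dv.zero ϖ j
  have htam : ∀ j, TameIn K (AlgebraicClosure K) S (red (σ.comp π) ϖ j) :=
    fun j => tameIn_of_tameSub (hR.mono (hRj j))
  have hin : ∀ Q : Ideal (𝓞 (AlgebraicClosure K)), Q.IsMaximal →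
      Q.comap (algebraMap (𝓞 K) (𝓞 (AlgebraicClosure K))) ∈ Set.range 𝔮 → ∀ τ ∈ Q.inertia (GK K),
      (σ.comp π τ - 1) ^ e = 0 := fun Q hQ hqQ τ hτ => hun e _ (hI Q hQ hqQ τ hτ)
  have h1 := link_gen hϖ p hp2 hO hL hA
    (hval.imp id (And.imp (lt_of_le_of_lt hn) (Or.imp id fun h => h.mono hn))) (σ.comp π) ha
    (fun g => V (π g)) (by
    intro j
    obtain ⟨U, hU, hU'⟩ := hcont j
    exact ⟨U.comap π, hU.preimage hc1, fun g hg => hU' _ hg⟩) (fun g => hσ _) htam hin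
    (by
      rcases hcase with ⟨h5, hf⟩ | ⟨a, b, hab, h⟩
      · exact Or.inl ⟨hn.trans h5, hf⟩
      · exact Or.inr ⟨a, b, hab, fun i hi Q hQ hqQ τ hτ => hun 2 _ (h i hi Q hQ hqQ τ hτ)⟩)
    (y.map (Function.surjInv hsurj)) (by rw [List.length_map, hy])
  rw [List.map_map] at h1
  have h2 : (fun g => res (V (π g))) ∘ Function.surjInv hsurj = fun g => res (V g) := by
    funext z
    rw [Function.comp_apply, Function.surjInv_eq hsurj]
  rwa [h2] at h1

section dvr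

variable (p : ℕ) [Fact p.Prime] (O : Type) [CommRing O] [IsDomain O] [IsDiscreteValuationRing O]
  [TopologicalSpace O] [CharP (ResidueField O) p] [Finite (ResidueField O)]
  [IsAdicComplete (maximalIdeal O) O] (hO : IsAdic (maximalIdeal O)) {S : Set (Ideal (𝓞 K))}
  {n : ℕ} (ρ : GK K →* GL (Fin n) O) (hρ : Continuous ρ)
  (hTame : TameSub K S ρ.ker) (hr : ∀ g, ∃ j : ℕ, residual ρ g ^ p ^ j = 1)

/-- the representation of the quotient by the kernel -/
noncomputable def quot : (GK K ⧸ ρ.ker) →* Matrix (Fin n) (Fin n) O :=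
  QuotientGroup.lift ρ.ker ((Units.coeHom _).comp ρ) (by
    intro g hg
    rw [MonoidHom.mem_ker]
    change ((ρ g : GL (Fin n) O) : Matrix (Fin n) (Fin n) O) = 1
    rw [(MonoidHom.mem_ker).1 hg]
    rfl)

include hO hρ in
lemma quot_cont {ϖ : O} (hϖ : Irreducible ϖ) : Cont ϖ (quot O ρ) := by
  have hmax : maximalIdeal O = Ideal.span {ϖ} := hϖ.maximalIdeal_eq
  have hopen := isOpen_KI_of_continuous hO ρ hρ
  intro j
  refine ⟨(KI ((Units.coeHom _).comp ρ : GK K →* Matrix (Fin n) (Fin n) O)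
    (maximalIdeal O ^ j)).map (QuotientGroup.mk' ρ.ker), ?_, ?_⟩
  · exact QuotientGroup.isOpenMap_coe _ (hopen j)
  · rintro _ ⟨g, hg, rfl⟩ i l
    have h1 := hg i l
    rwa [hmax, Ideal.span_singleton_pow, Ideal.mem_span_singleton] at h1

include hr in
lemma quot_resP {ϖ : O} (hϖ : Irreducible ϖ) : ResP ϖ p (quot O ρ) := by
  have hmax : maximalIdeal O = Ideal.span {ϖ} := hϖ.maximalIdeal_eq
  intro x
  obtain ⟨g, rfl⟩ := QuotientGroup.mk'_surjective ρ.ker x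
  obtain ⟨j, hj⟩ := hr g
  refine ⟨j, fun i l => ?_⟩
  have h1 : residual ρ (g ^ p ^ j) = 1 := by rw [map_pow, hj]
  have h2 := (residual_eq_one ρ _).1 h1
  rw [mem_ker_red] at h2
  have h3 := h2 i l
  rw [map_pow, Units.val_pow_eq_pow_val, hmax, pow_one, Ideal.mem_span_singleton] at h3
  rw [pow_one]
  exact h3

include hO hρ hTame hr in
/-- unipotence of the inertia groups in characteristic `p` and for small ramification -/
theorem unipotent_inertia (h : (p : O) = 0 ∨ ∃ e, (p : O) ∉ maximalIdeal O ^ (e + 1) ∧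
    e * n + 1 < p) (Q : Ideal (𝓞 (AlgebraicClosure K))) (hQ : Q.IsMaximal)
    (τ : GK K) (hτ : τ ∈ Q.inertia (GK K)) :
    IsNilpotent ((ρ τ : Matrix (Fin n) (Fin n) O) - 1) := by
  obtain ⟨ϖ, hϖ⟩ := IsDiscreteValuationRing.exists_irreducible O
  have hmax : maximalIdeal O = Ideal.span {ϖ} := hϖ.maximalIdeal_eq
  have hG : Good p O := ⟨inferInstance, inferInstance, inferInstance⟩
  obtain ⟨⟨t, ht⟩, h0⟩ := Helper77.SN.qu_quot (K := K) (S := S) hTame p hG hϖ (quot O ρ)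
    (quot_cont O hO ρ hρ hϖ) (quot_resP p O ρ hr hϖ)
    (x := QuotientGroup.mk' ρ.ker τ) ⟨Q, hQ, τ, hτ, rfl⟩
  rcases h with h | ⟨e, he, hen⟩
  · exact h0 h
  · have he' : ¬ ϖ ^ (e + 1) ∣ (p : O) := by
      rwa [hmax, Ideal.span_singleton_pow, Ideal.mem_span_singleton] at he
    refine Helper77.SM.unipotent_of_small p hϖ he' hen _ ?_ t ht
    rcases Nat.eq_zero_or_pos n with rfl | hpos
    · exact ⟨1, Subsingleton.elim _ _⟩
    have hne : NeZero n := ⟨hpos.ne'⟩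
    obtain ⟨j, hj⟩ := quot_resP p O ρ hr hϖ (QuotientGroup.mk' ρ.ker τ)
    refine ⟨p ^ j, ?_⟩
    change ((residue O).mapMatrix ((ρ τ : Matrix (Fin n) (Fin n) O) - 1)) ^ p ^ j = 0
    rw [map_sub, map_one, sub_pow_char_pow_of_commute _ _ (Commute.one_right _), one_pow,
      ← map_pow, ← map_one (residue O).mapMatrix, ← map_sub]
    ext i l
    change residue O _ = 0
    rw [residue_eq_zero_iff, hmax, Ideal.mem_span_singleton]
    have h1 := hj i l
    rw [pow_one] at h1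
    exact h1

include hO hρ hTame hr in
/-- residual images which are `p`-groups -/
theorem finite_res (hp2 : p ≠ 2) {f : ℕ} (hf : Nat.card (ResidueField O) = p ^ f)
    {𝔮 : Fin 4 → Ideal (𝓞 K)}
    {χ : Fin 4 → GK K →* Multiplicative (ZMod p)} {q : Fin 4 → ℕ} {l : Fin 4 → Fin 4 → ℕ}
    (hL : LD K (AlgebraicClosure K) p S 𝔮 χ q l)
    (hA : Aniso (fun i j => (l i j : ZMod p)))
    (hval : (p : O) = 0 ∨ (n < p ∧ (Spread p q l ∨ Flat p n q l))) (hS : S.Finite)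
    (hI : ∀ Q : Ideal (𝓞 (AlgebraicClosure K)), Q.IsMaximal →
      Q.comap (algebraMap (𝓞 K) (𝓞 (AlgebraicClosure K))) ∈ Set.range 𝔮 → ∀ τ ∈ Q.inertia (GK K),
      IsNilpotent ((ρ τ : Matrix (Fin n) (Fin n) O) - 1))
    (hcase : (n ≤ 5 ∧ Odd f) ∨ ∃ a b : Fin 4, a ≠ b ∧ ∀ i, (i = a ∨ i = b) →
      ∀ Q : Ideal (𝓞 (AlgebraicClosure K)), Q.IsMaximal →
        Q.comap (algebraMap (𝓞 K) (𝓞 (AlgebraicClosure K))) = 𝔮 i → ∀ τ ∈ Q.inertia (GK K),
          ((ρ τ : Matrix (Fin n) (Fin n) O) - 1) ^ 2 = 0) : (Set.range ρ).Finite := by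
  obtain ⟨ϖ, hϖ⟩ := IsDiscreteValuationRing.exists_irreducible O
  set R := ρ.ker with hR
  have hG : Gd p f ((p : O) = 0) O :=
    ⟨⟨inferInstance, inferInstance, inferInstance⟩, hf, fun h => h⟩
  let I : ℕ → Set (GK K ⧸ R) := fun e => {x | ∃ τ : GK K, QuotientGroup.mk' R τ = x ∧
    ((ρ τ : Matrix (Fin n) (Fin n) O) - 1) ^ e = 0}
  have hfab : FAb (GK K ⧸ R) := fab_quot hTame hS
  have hIn : ∀ Q : Ideal (𝓞 (AlgebraicClosure K)), Q.IsMaximal →
      Q.comap (algebraMap (𝓞 K) (𝓞 (AlgebraicClosure K))) ∈ Set.range 𝔮 → ∀ τ ∈ Q.inertia (GK K),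
      QuotientGroup.mk' R τ ∈ I n :=
    fun Q hQ hqQ τ hτ => ⟨τ, rfl, Helper77.SM.nilpotent_pow _ (hI Q hQ hqQ τ hτ)⟩
  have hcase' : (n ≤ 5 ∧ Odd f) ∨ ∃ a b : Fin 4, a ≠ b ∧ ∀ i, (i = a ∨ i = b) →
      ∀ Q : Ideal (𝓞 (AlgebraicClosure K)), Q.IsMaximal →
        Q.comap (algebraMap (𝓞 K) (𝓞 (AlgebraicClosure K))) = 𝔮 i → ∀ τ ∈ Q.inertia (GK K),
          QuotientGroup.mk' R τ ∈ I 2 := by
    rcases hcase with h | ⟨a, b, hab, h⟩
    · exact Or.inl h
    · exact Or.inr ⟨a, b, hab, fun i hi Q hQ hqQ τ hτ => ⟨τ, rfl, h i hi Q hQ hqQ τ hτ⟩⟩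
  have hC : ∀ m ≤ n, NilCrit p f ((p : O) = 0) m I := fun m hm =>
    nilCrit_gen p hp2 hL hA hval R hTame I hIn hcase' m hm
  obtain ⟨U, hU, hU'⟩ := nil_core hfab p f ((p : O) = 0) hC n le_rfl O hG ϖ hϖ (quot O ρ)
    (quot_cont O hO ρ hρ hϖ) (quot_resP p O ρ hr hϖ) (by
      rintro e _ ⟨τ, rfl, h⟩
      exact h)
  refine finite_range_of_open (N := U.comap (QuotientGroup.mk' R))
    (hU.preimage continuous_quotient_mk') ?_
  intro g hg
  rw [MonoidHom.mem_ker]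
  apply Units.ext
  exact hU' _ hg

end dvr

/-- projective residual images which are `p`-groups -/
theorem finite_main (p : ℕ) [Fact p.Prime] (hp2 : p ≠ 2)
    {S : Set (Ideal (𝓞 K))} {𝔮 : Fin 4 → Ideal (𝓞 K)}
    {χ : Fin 4 → GK K →* Multiplicative (ZMod p)} {q : Fin 4 → ℕ} {l : Fin 4 → Fin 4 → ℕ}
    (hL : LD K (AlgebraicClosure K) p S 𝔮 χ q l)
    (hA : Aniso (fun i j => (l i j : ZMod p))) (hS : S.Finite)
    (O : Type) [CommRing O] [IsDomain O] [IsDiscreteValuationRing O]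
    [TopologicalSpace O] [CharP (ResidueField O) p] [Finite (ResidueField O)]
    [IsAdicComplete (maximalIdeal O) O] (hO : IsAdic (maximalIdeal O)) {f : ℕ}
    (hf : Nat.card (ResidueField O) = p ^ f) {n : ℕ}
    (ρ : GK K →* GL (Fin n) O) (hρ : Continuous ρ) (hTame : TameSub K S ρ.ker)
    (hr : ∀ g, ∃ (j : ℕ) (a : ResidueField O),
      ((residual ρ g ^ p ^ j : GL (Fin n) (ResidueField O)) :
        Matrix (Fin n) (Fin n) (ResidueField O)) = a • 1)
    (hchar : (p : O) = 0 ∨ ((n < p ∧ (Spread p q l ∨ Flat p n q l)) ∧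
      ((∃ e, (p : O) ∉ maximalIdeal O ^ (e + 1) ∧ e * n + 1 < p) ∨
      ∀ Q : Ideal (𝓞 (AlgebraicClosure K)), Q.IsMaximal →
        Q.comap (algebraMap (𝓞 K) (𝓞 (AlgebraicClosure K))) ∈ Set.range 𝔮 → ∀ τ ∈ Q.inertia (GK K),
        IsNilpotent ((ρ τ : Matrix (Fin n) (Fin n) O) - 1))))
    (hcase : (n ≤ 5 ∧ Odd f) ∨ ∃ a b : Fin 4, a ≠ b ∧ ∀ i, (i = a ∨ i = b) →
      ∀ Q : Ideal (𝓞 (AlgebraicClosure K)), Q.IsMaximal →
        Q.comap (algebraMap (𝓞 K) (𝓞 (AlgebraicClosure K))) = 𝔮 i → ∀ τ ∈ Q.inertia (GK K),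
          ((ρ τ : Matrix (Fin n) (Fin n) O) - 1) ^ 2 = 0) :
    (Set.range ρ).Finite := by
  rcases Nat.eq_zero_or_pos n with rfl | hpos
  · exact Set.toFinite _
  have hne : NeZero n := ⟨hpos.ne'⟩
  obtain ⟨χ, ρ', hχ, hρ', hker, hmul, hres, hone⟩ := exists_twist p hO ρ hρ hr
  have hTame' := hTame.mono hker
  have heq : ∀ τ, IsNilpotent ((ρ τ : Matrix (Fin n) (Fin n) O) - 1) → ρ' τ = ρ τ := by
    intro τ h
    have h2 : χ τ = 1 := by
      apply hone
      obtain ⟨m, hm⟩ := h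
      have h1 : (((residual ρ τ : GL (Fin n) (ResidueField O)) :
          Matrix (Fin n) (Fin n) (ResidueField O)) - 1) ^ m = 0 := by
        have h2 := congrArg (residue O).mapMatrix hm
        rw [map_pow, map_sub, map_one, map_zero] at h2
        exact h2
      refine ⟨m, ?_⟩
      apply Units.ext
      have h3 : m ≤ p ^ m := (Nat.lt_pow_self (Fact.out : p.Prime).one_lt).le
      have h4 : (((residual ρ τ : GL (Fin n) (ResidueField O)) :
          Matrix (Fin n) (Fin n) (ResidueField O)) - 1) ^ p ^ m = 0 := pow_eq_zero_of_le h3 h1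
      rw [sub_pow_char_pow_of_commute _ _ (Commute.one_right _), one_pow, sub_eq_zero] at h4
      rw [Units.val_pow_eq_pow_val, Units.val_one]
      exact h4
    have h3 := hmul τ
    rw [h2, Units.val_one, one_smul] at h3
    exact Units.ext h3.symm
  refine finite_of_twist hχ (finite_res p O hO ρ' hρ' hTame' hres hp2 hf hL hA ?_ hS ?_ ?_)
    hmul
  · rcases hchar with h | h
    · exact Or.inl h
    · exact Or.inr h.1
  · rcases hchar with h | ⟨-, h | h⟩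
    · exact fun Q hQ _ => unipotent_inertia p O hO ρ' hρ' hTame' hres (Or.inl h) Q hQ
    · exact fun Q hQ _ => unipotent_inertia p O hO ρ' hρ' hTame' hres (Or.inr h) Q hQ
    · intro Q hQ hqQ τ hτ
      rw [heq τ (h Q hQ hqQ τ hτ)]
      exact h Q hQ hqQ τ hτ
  · rcases hcase with h | ⟨a, b, hab, h⟩
    · exact Or.inl h
    · refine Or.inr ⟨a, b, hab, fun i hi Q hQ hqQ τ hτ => ?_⟩
      have h1 := h i hi Q hQ hqQ τ hτ
      rw [heq τ ⟨2, h1⟩]
      exact h1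

end Pool.Agent.Helper84.T5K
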