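import Pool.Agent.Helper84.T5.Link
import Pool.Agent.Helper91.KK.Base

/-!
# The criterion for leading terms over a number field
-/

set_option autoImplicit false

open NumberField IsLocalRing Pool.Agent.Helper16.TR Pool.Agent.Helper27.TE
  Pool.Agent.Helper27.LP Pool.Agent.Helper27.TFM Matrix

open scoped Pointwise

namespace Pool.Agent.Helper84.T5K

open Pool.Agent.Helper77
open Pool.Agent.Helper77.SO hiding Dv Cont ResP FinIm aug IsOrd Irr cf Criterion
open Pool.Agent.Helper77.SM (Good Dv Cont ResP FinIm res res_add res_smul res_eq_zero res_mul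
  res_zero smul_pow_inj dv_smul_iff dv_smul_pow)
open Pool.Agent.Helper42.SOM hiding exists_decomp tame_rel
open Pool.Agent.Helper91.KK (LD exists_decomp tame_rel card_ne_zero)
open Pool.Agent.Helper84.T5
open Pool.Agent.Helper42.SOG (prod_eq_zero_of_chain prod_comb)

section arith

variable {O : Type} [CommRing O] [IsDomain O] [IsDiscreteValuationRing O] {ϖ : O}

variable {K Ω : Type} [Field K] [NumberField K] [Field Ω] [Algebra K Ω] [IsGalois K Ω]

theorem link_gen (hϖ : Irreducible ϖ) (p : ℕ) [Fact p.Prime] (hp2 : p ≠ 2)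
    {f : ℕ} {z : Prop} (hO : Gd p f z O)
    {S : Set (Ideal (𝓞 K))} {𝔮 : Fin 4 → Ideal (𝓞 K)}
    {χ : Fin 4 → (Ω ≃ₐ[K] Ω) →* Multiplicative (ZMod p)} {q : Fin 4 → ℕ} {l : Fin 4 → Fin 4 → ℕ}
    (hL : LD K Ω p S 𝔮 χ q l) (hA : Aniso (fun i j => (l i j : ZMod p))) {n e : ℕ}
    (hval : z ∨ (n < p ∧ (Spread p q l ∨ Flat p n q l)))
    (σ : (Ω ≃ₐ[K] Ω) →* Matrix (Fin n) (Fin n) O) {a : ℕ} (ha : 1 ≤ a)
    (V : (Ω ≃ₐ[K] Ω) → Matrix (Fin n) (Fin n) O)
    (hcont : ∀ j : ℕ, ∃ U : Subgroup (Ω ≃ₐ[K] Ω), IsOpen (U : Set (Ω ≃ₐ[K] Ω)) ∧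
      ∀ g ∈ U, Dv ϖ j (σ g - 1))
    (hσ : ∀ g, σ g = 1 + ϖ ^ a • V g) (htam : ∀ j, TameIn K Ω S (red σ ϖ j))
    (hun : ∀ Q : Ideal (𝓞 Ω), Q.IsMaximal → Q.comap (algebraMap (𝓞 K) (𝓞 Ω)) ∈ Set.range 𝔮 →
      ∀ τ ∈ Q.inertia (Ω ≃ₐ[K] Ω), (σ τ - 1) ^ e = 0)
    (hcase : (n ≤ 5 ∧ Odd f) ∨ ∃ a b : Fin 4, a ≠ b ∧ ∀ i, (i = a ∨ i = b) →
      ∀ Q : Ideal (𝓞 Ω), Q.IsMaximal → Q.comap (algebraMap (𝓞 K) (𝓞 Ω)) = 𝔮 i →
        ∀ τ ∈ Q.inertia (Ω ≃ₐ[K] Ω), (σ τ - 1) ^ 2 = 0)
    (y : List (Ω ≃ₐ[K] Ω)) (hy : y.length = n) :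
    (y.map fun g => res (V g)).prod = 0 := by
  have hchar := hO.good.char
  have hfin := hO.good.finite
  set k := ResidueField O with hk
  -- the function `V`
  have hV : ∀ g h, V (g * h) = V g + V h + ϖ ^ a • (V g * V h) := by
    intro g h
    apply smul_pow_inj hϖ a
    have h1 := hσ (g * h)
    rw [map_mul, hσ g, hσ h] at h1
    have h2 : ϖ ^ a • V (g * h) = (1 + ϖ ^ a • V g) * (1 + ϖ ^ a • V h) - 1 := by
      rw [h1]; abel
    rw [h2, smul_add, smul_add, mul_add, mul_one, add_mul, one_mul, Matrix.smul_mul,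
      Matrix.mul_smul]
    abel
  have hadd : ∀ g h, res (V (g * h)) = res (V g) + res (V h) := by
    intro g h
    rw [hV, res_add, res_add, res_smul, residue_pow hϖ ha, zero_smul, add_zero]
  -- the reductions
  have hker : ∀ (j : ℕ) (g : Ω ≃ₐ[K] Ω), g ∈ (red σ ϖ j).ker ↔ Dv ϖ j (σ g - 1) := by
    intro j g
    rw [MonoidHom.mem_ker, red_eq_one_iff]
  have hopen : ∀ j, IsOpen ((red σ ϖ j).ker : Set (Ω ≃ₐ[K] Ω)) := by
    intro j
    obtain ⟨U, hU, hU'⟩ := hcont j
    exact Subgroup.isOpen_mono (H₁ := U) (fun g hg => (hker j g).2 (hU' g hg)) hU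
  have hker1 : ∀ g, red σ ϖ (a + 1) g = 1 → res (V g) = 0 := by
    intro g hg
    rw [red_eq_one_iff, hσ, add_sub_cancel_left, dv_smul_iff hϖ] at hg
    exact (res_eq_zero hϖ _).2 hg
  have hrel : ∀ (P : Ideal (𝓞 Ω)) (_ : P.IsMaximal)
      (_ : (p : 𝓞 Ω) ∉ P) (x : Ω ≃ₐ[K] Ω) (N : ℕ)
      (_ : ∀ y : 𝓞 Ω, x • y - y ^ N ∈ P) (γ : Ω ≃ₐ[K] Ω) (_ : γ ∈ P.inertia (Ω ≃ₐ[K] Ω)),
      σ x * σ γ = σ γ ^ N * σ x :=
    fun P hP hpP x N hx γ hγ => tame_rel hϖ p σ hopen htam P hP hpP x N hx γ hγ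
  obtain ⟨N, Q, τ, x, m, s, hQ, hqQ, hpQ, hτ, hx, hm, hNτ, hNx, hspan⟩ :=
    exists_decomp p hL (k := k) (fun g => res (V g)) hadd (htam (a + 1)) (hopen (a + 1)) hker1
  -- it suffices that the matrices generate a nilpotent algebra
  have hfinal : (∀ s : List (Fin 4), n ≤ s.length → (s.map N).prod = 0) →
      (y.map fun g => res (V g)).prod = 0 := by
    intro hm
    refine prod_eq_zero_of_chain (S := (Submodule.span k (Set.range N) :
      Submodule k (Matrix (Fin n) (Fin n) k))) (m := n)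
      (fun l hl hlm => prod_comb (fun s hs => hm s hs.ge) l hl hlm) _ ?_
      (by rw [List.length_map, hy])
    intro z hz
    obtain ⟨g, -, rfl⟩ := List.mem_map.1 hz
    obtain ⟨b, hb⟩ := hspan g
    change res (V g) ∈ Submodule.span k (Set.range N)
    rw [hb]
    exact Submodule.sum_mem _ fun i _ => Submodule.smul_mem _ _ (Submodule.subset_span ⟨i, rfl⟩)
  apply hfinal
  have hq0 : ∀ i, q i ≠ 0 := fun i => by have := card_ne_zero hL i; omega
  have hq1 : ∀ i, q i - 1 ≠ 0 := by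
    intro i
    have := card_ne_zero hL i
    omega
  have hreli : ∀ i, (1 + ϖ ^ a • V (x i)) * (1 + ϖ ^ a • V (τ i)) =
      (1 + ϖ ^ a • V (τ i)) ^ q i * (1 + ϖ ^ a • V (x i)) := by
    intro i
    rw [← hσ, ← hσ]
    exact hrel (Q i) (hQ i) (hpQ i) (x i) (q i) (hx i) (τ i) (hτ i)
  have hrelN : ∀ i, res (V (x i)) * res (V (τ i)) - res (V (τ i)) * res (V (x i)) =
      (m i : k) • ∑ j ∈ Finset.univ.erase i, (l i j : k) • (N j * N i - N i * N j) := by
    intro i
    rw [hNτ i, hNx i, Matrix.mul_smul, Matrix.smul_mul, ← smul_sub, add_mul, mul_add,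
      Matrix.smul_mul, Matrix.mul_smul, add_sub_add_left_eq_sub, Finset.sum_mul, Finset.mul_sum,
      ← Finset.sum_sub_distrib]
    congr 1
    refine Finset.sum_congr rfl fun j _ => ?_
    rw [Matrix.smul_mul, Matrix.mul_smul, smul_sub]
  have hNpow : ∀ i (e : ℕ), (σ (τ i) - 1) ^ e = 0 → N i ^ e = 0 := by
    intro i e h1
    rw [hσ, add_sub_cancel_left, smul_pow] at h1
    have h5 : V (τ i) ^ e = 0 :=
      (smul_eq_zero.1 h1).resolve_left (pow_ne_zero _ (pow_ne_zero _ hϖ.ne_zero))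
    have h6 := congrArg Helper77.SM.res h5
    rw [Helper77.SM.res_pow, res_zero, hNτ i, smul_pow] at h6
    exact (smul_eq_zero.1 h6).resolve_left (pow_ne_zero _ (hm i))
  have hNe : ∀ i, N i ^ e = 0 := fun i => hNpow i e (hun (Q i) (hQ i) ⟨i, (hqQ i).symm⟩ (τ i) (hτ i))
  -- the relations with their right sides
  have hw : ∀ i, ∀ (d : ℕ) (u : O), IsUnit u → ((q i - 1 : ℕ) : O) = ϖ ^ d * u → ∃ w : k,
      (∑ j ∈ Finset.univ.erase i, (l i j : k) • (N j * N i - N i * N j) = w • N i) ∧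
      (a < d → w = 0) ∧ (a = d → w ≠ 0) ∧ (d < a → N i = 0 ∧ w = 0) := by
    intro i d u hu hd
    rcases lt_or_ge d a with hda | hda
    · have h1 := rel_lt hϖ (hq0 i) (hreli i) hda hu hd
      rw [hNτ i] at h1
      have h2 := (smul_eq_zero.1 h1).resolve_left (hm i)
      refine ⟨0, ?_, fun _ => rfl, fun h => by omega, fun _ => ⟨h2, rfl⟩⟩
      rw [h2, smul_zero]
      exact Finset.sum_eq_zero fun j _ => by rw [mul_zero, zero_mul, sub_zero, smul_zero]
    · obtain ⟨b, rfl⟩ := Nat.exists_eq_add_of_le hda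
      have h1 := rel_ge hϖ p hp2 ha (hq0 i) (hreli i) (hL.dvd i) (u := ϖ ^ b * u)
        (by rw [hd, pow_add]; ring)
      rw [hrelN i, hNτ i, smul_comm] at h1
      refine ⟨residue O (ϖ ^ b * u), ?_, ?_, ?_, fun h => by omega⟩
      · have h2 : (m i : k) • ((∑ j ∈ Finset.univ.erase i, (l i j : k) • (N j * N i - N i * N j)) -
            residue O (ϖ ^ b * u) • N i) = 0 := by
          rw [smul_sub, h1, sub_self]
        exact sub_eq_zero.1 ((smul_eq_zero.1 h2).resolve_left (hm i))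
      · intro h
        rw [map_mul, residue_pow hϖ (by omega), zero_mul]
      · intro h
        have hb : b = 0 := by omega
        rw [hb, pow_zero, one_mul]
        intro h5
        rw [residue_eq_zero_iff] at h5
        exact (mem_nonunits_iff.1 h5) hu
  have hge : ∀ i (u : O), ((q i - 1 : ℕ) : O) = ϖ ^ a * u →
      (∑ j ∈ Finset.univ.erase i, (l i j : k) • (N j * N i - N i * N j) = residue O u • N i) := by
    intro i u hd
    have h1 := rel_ge hϖ p hp2 ha (hq0 i) (hreli i) (hL.dvd i) (u := u) hd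
    rw [hrelN i, hNτ i, smul_comm] at h1
    have h2 : (m i : k) • ((∑ j ∈ Finset.univ.erase i, (l i j : k) • (N j * N i - N i * N j)) -
        residue O u • N i) = 0 := by
      rw [smul_sub, h1, sub_self]
    exact sub_eq_zero.1 ((smul_eq_zero.1 h2).resolve_left (hm i))
  have hwz : ∀ i, ((q i - 1 : ℕ) : O) = 0 →
      (∑ j ∈ Finset.univ.erase i, (l i j : k) • (N j * N i - N i * N j) = (0 : k) • N i) := by
    intro i hd
    have h1 := hge i 0 (by rw [hd, mul_zero])
    rwa [map_zero] at h1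
  -- the homogeneous case
  have hhom : ((n ≤ 5 ∧ ∃ f, Odd f ∧ Nat.card k = p ^ f) ∨
      ∃ a b, a ≠ b ∧ N a * N a = 0 ∧ N b * N b = 0) := by
    rcases hcase with ⟨h5, hf⟩ | ⟨a', b', hab, h⟩
    · exact Or.inl ⟨h5, f, hf, hO.card⟩
    · refine Or.inr ⟨a', b', hab, ?_, ?_⟩
      · rw [← pow_two]
        exact hNpow a' 2 (h a' (Or.inl rfl) (Q a') (hQ a') (hqQ a') (τ a') (hτ a'))
      · rw [← pow_two]
        exact hNpow b' 2 (h b' (Or.inr rfl) (Q b') (hQ b') (hqQ b') (τ b') (hτ b'))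
  -- application of the theorem on operators
  have hop : ∀ w : Fin 4 → k, (∀ i, ∑ j ∈ Finset.univ.erase i,
      (l i j : k) • (N j * N i - N i * N j) = w i • N i) →
      (((∀ i, w i = 0) ∧ ((n ≤ 5 ∧ ∃ f, Odd f ∧ Nat.card k = p ^ f) ∨
        ∃ a b, a ≠ b ∧ N a * N a = 0 ∧ N b * N b = 0)) ∨
      (n < p ∧ w 0 ≠ 0 ∧ ∀ i, i ≠ 0 → w i = 0) ∨ (N 0 = 0 ∧ ((∃ c, c ≠ 0 ∧ w c = 0) ∨
        ((l 1 3 : ℕ) : ZMod p) * (l 2 1 : ℕ) * (l 3 2 : ℕ) +
          ((l 1 2 : ℕ) : ZMod p) * (l 2 3 : ℕ) * (l 3 1 : ℕ) ≠ 0))) →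
      ∀ s : List (Fin 4), n ≤ s.length → (s.map N).prod = 0 := by
    intro w hrw hcw s hs
    let Ψ : Matrix (Fin n) (Fin n) k ≃ₐ[k] Module.End k (Fin n → k) := Matrix.toLinAlgEquiv'
    have hrel' : Rel (fun i j => ZMod.castHom dvd_rfl k ((l i j : ℕ) : ZMod p)) w
        (fun i => Ψ (N i)) := by
      intro i
      have h1 := congrArg Ψ (hrw i)
      rw [map_sum, map_smul] at h1
      rw [← h1]
      refine Finset.sum_congr rfl fun j _ => ?_
      rw [map_smul, map_sub, map_mul, map_mul]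
      simp only [map_natCast]
    have h1 := prod_eq_zero hp2 hA n (Fin n → k) (by rw [Module.finrank_fin_fun])
      (fun i => Ψ (N i)) hrel' (fun i => ⟨e, by rw [← map_pow, hNe, map_zero]⟩) ?_ s hs
    · have h2 : Ψ ((s.map N).prod) = 0 := by
        rw [← h1, map_list_prod, List.map_map]
        rfl
      exact (map_eq_zero_iff Ψ Ψ.injective).1 h2
    · rcases hcw with ⟨hw0, h5⟩ | h5 | ⟨h0, h5⟩
      · refine Or.inl ⟨hw0, ?_⟩
        rcases h5 with h5 | ⟨a, b, hab, ha, hb⟩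
        · exact Or.inl h5
        · exact Or.inr ⟨a, b, hab, by rw [← map_mul, ha, map_zero], by rw [← map_mul, hb, map_zero]⟩
      · exact Or.inr (Or.inl h5)
      · exact Or.inr (Or.inr ⟨by rw [h0, map_zero], h5⟩)
  by_cases hp0 : (p : O) = 0
  · -- characteristic `p`
    refine hop 0 (fun i => hwz i ?_) (Or.inl ⟨fun _ => rfl, hhom⟩)
    obtain ⟨c, hc⟩ := hL.dvd i
    rw [hc, Nat.cast_mul, hp0, zero_mul]
  obtain ⟨hnp, hval⟩ := hval.resolve_left fun hz => hp0 (hO.zero hz)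
  rcases hval with ⟨hsp1, hsp2⟩ | ⟨v, c, hvc, hc, hrig⟩
  · obtain ⟨E, hE, hEq⟩ := val_eq hϖ p hp0
    choose u hu hud using fun i => hEq (q i - 1) (hq1 i)
    choose w hwr hw1 hw2 hw3 using fun i => hw i _ (u i) (hu i) (hud i)
    refine hop w hwr ?_
    rcases lt_trichotomy a (E * padicValNat p (q 0 - 1)) with h | h | h
    · left
      refine ⟨fun i => hw1 i ?_, hhom⟩
      by_cases hi : i = 0
      · rw [hi]; exact h
      · exact h.trans_le (Nat.mul_le_mul_left E (hsp1 i hi).le)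
    · right; left
      refine ⟨hnp, hw2 0 h, fun i hi => hw1 i ?_⟩
      rw [h]
      exact Nat.mul_lt_mul_of_pos_left (hsp1 i hi) (by omega)
    · right; right
      refine ⟨(hw3 0 h).1, ?_⟩
      rcases hsp2 with ⟨i₁, i₂, hi₁, hi₂, hne⟩ | hE
      swap
      · right
        intro h1
        apply hE
        rw [← CharP.cast_eq_zero_iff (ZMod p) p]
        push_cast
        exact h1
      left
      have key : ∀ i, i ≠ 0 → a ≠ E * padicValNat p (q i - 1) → ∃ c, c ≠ 0 ∧ w c = 0 := by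
        intro i hi hne
        refine ⟨i, hi, ?_⟩
        rcases lt_or_gt_of_ne hne with h1 | h1
        · exact hw1 i h1
        · exact (hw3 i h1).2
      by_cases h1 : a = E * padicValNat p (q i₁ - 1)
      · refine key i₂ hi₂ fun h2 => hne ?_
        have h3 : E * padicValNat p (q i₁ - 1) = E * padicValNat p (q i₂ - 1) := h1.symm.trans h2
        exact Nat.eq_of_mul_eq_mul_left (by omega) h3
      · exact key i₁ hi₁ h1
  · obtain ⟨E, u, hE⟩ := IsDiscreteValuationRing.eq_unit_mul_pow_irreducible hp0 hϖ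
    have hqi : ∀ i, ((q i - 1 : ℕ) : O) = ϖ ^ (E * v) * ((u : O) ^ v * (c i : O)) := by
      intro i
      rw [hvc i, Nat.cast_mul, Nat.cast_pow, hE, mul_pow, ← pow_mul]
      ring
    have huc : ∀ i, IsUnit ((u : O) ^ v * (c i : O)) := by
      intro i
      refine (u.isUnit.pow _).mul ?_
      by_contra h
      have h1 : residue O (c i : O) = 0 := (residue_eq_zero_iff _).2 ((mem_maximalIdeal _).2 h)
      rw [map_natCast, CharP.cast_eq_zero_iff (ResidueField O) p] at h1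
      exact hc i h1
    choose w hwr hw1 hw2 hw3 using fun i => hw i _ _ (huc i) (hqi i)
    rcases lt_trichotomy a (E * v) with h | h | h
    · exact hop w hwr (Or.inl ⟨fun i => hw1 i h, hhom⟩)
    · have hN0 : ∀ i, N i = 0 := by
        set r : k := residue O ((u : O) ^ v) with hr
        have hr0 : r ≠ 0 := by
          intro h5
          rw [hr, residue_eq_zero_iff] at h5
          exact (mem_nonunits_iff.1 h5) (u.isUnit.pow _)
        have h1 := hrig n le_rfl k (fun i => r⁻¹ • N i) (fun i => by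
            refine ⟨e, ?_⟩
            change (r⁻¹ • N i) ^ e = 0
            rw [smul_pow, hNe, smul_zero]) (fun i => by
            have h2 := hge i ((u : O) ^ v * (c i : O)) (by rw [h]; exact hqi i)
            rw [map_mul, map_natCast, ← hr] at h2
            have h3 : (∑ j ∈ Finset.univ.erase i, (l i j : k) • (r⁻¹ • N j)) * (r⁻¹ • N i) -
                (r⁻¹ • N i) * (∑ j ∈ Finset.univ.erase i, (l i j : k) • (r⁻¹ • N j)) =
                (r⁻¹ * r⁻¹) • ∑ j ∈ Finset.univ.erase i, (l i j : k) • (N j * N i - N i * N j) := by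
              rw [Finset.sum_mul, Finset.mul_sum, ← Finset.sum_sub_distrib, Finset.smul_sum]
              refine Finset.sum_congr rfl fun j _ => ?_
              simp only [Matrix.smul_mul, Matrix.mul_smul, smul_sub, smul_smul]
              congr 2 <;> ring
            change (∑ j ∈ Finset.univ.erase i, (l i j : k) • (r⁻¹ • N j)) * (r⁻¹ • N i) -
                (r⁻¹ • N i) * (∑ j ∈ Finset.univ.erase i, (l i j : k) • (r⁻¹ • N j)) =
                (c i : k) • (r⁻¹ • N i)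
            rw [h3, h2, smul_smul, smul_smul]
            rw [show r⁻¹ * r⁻¹ * (r * (c i : k)) = (r⁻¹ * r) * ((c i : k) * r⁻¹) by ring,
              inv_mul_cancel₀ hr0, one_mul])
        intro i
        exact (smul_eq_zero.1 (h1 i)).resolve_left (inv_ne_zero hr0)
      intro s hs
      rcases s with _ | ⟨b, s⟩
      · have hn0 : n = 0 := by simpa using hs
        subst hn0
        exact Subsingleton.elim _ _
      · rw [List.map_cons, List.prod_cons, hN0 b, zero_mul]
    · intro s hs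
      rcases s with _ | ⟨b, s⟩
      · have hn0 : n = 0 := by simpa using hs
        subst hn0
        exact Subsingleton.elim _ _
      · rw [List.map_cons, List.prod_cons, (hw3 b h).1, zero_mul]

end arith

end Pool.Agent.Helper84.T5K
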